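import Pool.Agent.H961.T3.Test
import Pool.Agent.H961.T6.StmA

/-! Project KS (helper961), task TESTK (helper538): from the moments to the Laplace functional at
`K` separated scales (`S_BON → S_TESTK`). Variant of `Pool/Agent/H961/T3/Test.lean`. -/

set_option autoImplicit false

namespace Pool.Agent.H538.KS

open Finset Pool.Agent.H961.T3 Pool.Agent.H961.T6 MeasureTheory

noncomputable section

section words

/-- sum over the words of length `k` over `T`, weighted with `c` -/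
def SW {X : Type} (c : X → ℝ) (T : Finset X) : ℕ → (List X → ℝ) → ℝ
  | 0, F => F []
  | k + 1, F => ∑ l ∈ T, c l * SW c T k (fun ls => F (l :: ls))

variable {X : Type} {c : X → ℝ} {T : Finset X}

theorem SW_mul (x : ℝ) (k : ℕ) : ∀ F : List X → ℝ,
    SW c T k (fun ls => x * F ls) = x * SW c T k F := by
  induction k with
  | zero => intro F; rfl
  | succ k ih =>
    intro F
    simp only [SW, ih, mul_sum]
    refine sum_congr rfl fun l _ => by ring

theorem SW_sum {κ : Type} (t : Finset κ) (k : ℕ) : ∀ F : κ → List X → ℝ,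
    SW c T k (fun ls => ∑ i ∈ t, F i ls) = ∑ i ∈ t, SW c T k (F i) := by
  induction k with
  | zero => intro F; rfl
  | succ k ih =>
    intro F
    simp only [SW, ih, mul_sum]
    exact sum_comm

theorem SW_bound {η : ℝ} {g : X → ℝ} (k : ℕ) : ∀ F G : List X → ℝ,
    (∀ ls : List X, ls.length = k → (∀ l ∈ ls, l ∈ T) →
      |F ls - G ls| ≤ η * (ls.map g).prod) →
    |SW c T k F - SW c T k G| ≤ (∑ l ∈ T, |c l| * g l) ^ k * η := by
  induction k generalizing η with
  | zero =>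
    intro F G h
    have h1 := h [] rfl (by simp)
    simp only [List.map_nil, List.prod_nil, mul_one] at h1
    simpa [SW] using h1
  | succ k ih =>
    intro F G h
    simp only [SW]
    rw [← sum_sub_distrib]
    calc |∑ l ∈ T, (c l * SW c T k (fun ls => F (l :: ls)) -
            c l * SW c T k (fun ls => G (l :: ls)))|
        ≤ ∑ l ∈ T, |c l * SW c T k (fun ls => F (l :: ls)) -
            c l * SW c T k (fun ls => G (l :: ls))| := abs_sum_le_sum_abs _ _
      _ ≤ ∑ l ∈ T, (|c l| * g l) * ((∑ l ∈ T, |c l| * g l) ^ k * η) := by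
          refine sum_le_sum fun l hl => ?_
          rw [← mul_sub, abs_mul]
          have h1 : |SW c T k (fun ls => F (l :: ls)) - SW c T k (fun ls => G (l :: ls))| ≤
              (∑ l ∈ T, |c l| * g l) ^ k * (η * g l) := by
            refine ih (η := η * g l) _ _ ?_
            intro ls h1 h2
            have h3 := h (l :: ls) (by simp [h1]) (by
              intro l' hl'
              rcases List.mem_cons.1 hl' with rfl | h3
              · exact hl
              · exact h2 l' h3)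
            rw [List.map_cons, List.prod_cons] at h3
            rw [mul_assoc]
            exact h3
          refine (mul_le_mul_of_nonneg_left h1 (abs_nonneg _)).trans (le_of_eq ?_)
          ring
      _ = (∑ l ∈ T, |c l| * g l) ^ (k + 1) * η := by rw [← sum_mul, pow_succ]; ring

theorem SW_prod (g : X → ℝ) (k : ℕ) :
    SW c T k (fun ls => (ls.map g).prod) = (∑ l ∈ T, c l * g l) ^ k := by
  induction k with
  | zero => simp [SW]
  | succ k ih =>
    simp only [SW, List.map_cons, List.prod_cons, SW_mul, ih]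
    rw [pow_succ, mul_comm, sum_mul]
    refine sum_congr rfl fun l _ => by ring

end words

section fmlem

variable {ι : Type} [DecidableEq ι]

theorem fm_eq {X : Type} (c : X → ℝ) (T : Finset X) (a : ι → ℕ) (w : X → ℝ) (k : ℕ) :
    ∀ s : Finset ι,
    fm (fun C => ∑ l ∈ T, c l * ((a C : ℝ) * w l ^ a C)) k s =
      SW c T k (fun ls => ph a (ls.map w) s) := by
  induction k with
  | zero => intro s; simp [fm, SW, ph]
  | succ k ih =>
    intro s
    simp only [fm, SW, List.map_cons, ph, ih, SW_sum, SW_mul]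
    simp only [sum_mul, mul_sum]
    rw [sum_comm]
    refine sum_congr rfl fun l _ => sum_congr rfl fun C _ => ?_
    ring

end fmlem

/-- Weierstrass approximations with a common degree -/
theorem weierK {K : ℕ} (φ : Fin K → ℝ → ℝ) (hc : ∀ i, Continuous (φ i))
    (h01 : ∀ i u, 0 ≤ φ i u ∧ φ i u ≤ 1) (α β : ℝ)
    (hα : 0 < α) (hαβ : α ≤ β) (hs : ∀ i u, (u < α ∨ β < u) → φ i u = 0) (η₁ : ℝ) (hη : 0 < η₁) :
    ∃ (M : ℕ) (c : Fin K → ℕ → ℝ), 1 ≤ M ∧
      (∀ i u, 0 ≤ u → |φ i u - u * ∑ l ∈ Icc 1 M, c i l * Real.exp (-u) ^ l| ≤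
        η₁ * (u * Real.exp (-u))) ∧
      ∀ i, |∑ l ∈ Icc 1 M, c i l / l - ∫ u in Set.Ioi (0:ℝ), φ i u / u| ≤ η₁ := by
  have h1 : ∀ i, ∃ (M : ℕ) (c : ℕ → ℝ), 1 ≤ M ∧
      (∀ u, 0 ≤ u → |φ i u - u * ∑ l ∈ Icc 1 M, c l * Real.exp (-u) ^ l| ≤
        η₁ * (u * Real.exp (-u))) ∧
      |∑ l ∈ Icc 1 M, c l / l - ∫ u in Set.Ioi (0:ℝ), φ i u / u| ≤ η₁ := fun i =>
    Testh.weier (φ i) (hc i) (h01 i) α β hα hαβ (hs i) η₁ hη
  choose M c hM hw1 hw2 using h1
  have hle : ∀ i, M i ≤ ∑ i, M i + 1 := fun i =>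
    (Finset.single_le_sum (f := M) (fun _ _ => Nat.zero_le _) (mem_univ i)).trans (Nat.le_succ _)
  have key : ∀ (i : Fin K) (F : ℕ → ℝ),
      ∑ l ∈ Icc 1 (∑ i, M i + 1), (if l ≤ M i then c i l else 0) * F l =
        ∑ l ∈ Icc 1 (M i), c i l * F l := by
    intro i F
    have hsub : Icc 1 (M i) ⊆ Icc 1 (∑ i, M i + 1) := by
      intro l hl
      rw [mem_Icc] at hl ⊢
      exact ⟨hl.1, hl.2.trans (hle i)⟩
    rw [← sum_subset hsub (f := fun l => (if l ≤ M i then c i l else 0) * F l)]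
    · refine sum_congr rfl fun l hl => ?_
      rw [if_pos (mem_Icc.1 hl).2]
    · intro l hl hl'
      rw [if_neg, zero_mul]
      intro h
      exact hl' (mem_Icc.2 ⟨(mem_Icc.1 hl).1, h⟩)
  refine ⟨∑ i, M i + 1, fun i l => if l ≤ M i then c i l else 0, Nat.le_add_left _ _, ?_, ?_⟩
  · intro i u hu
    have := hw1 i u hu
    simp only [key i (fun l => Real.exp (-u) ^ l)]
    exact this
  · intro i
    have h2 := key i (fun l : ℕ => ((l : ℝ))⁻¹)
    have h3 : ∑ l ∈ Icc 1 (∑ i, M i + 1), (if l ≤ M i then c i l else 0) / (l : ℝ) =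
        ∑ l ∈ Icc 1 (M i), c i l / l := by
      simp only [div_eq_mul_inv]
      exact h2
    rw [h3]
    exact hw2 i

section final

theorem moment {K : ℕ} {Ω ι : Type} [Fintype Ω] [DecidableEq ι] (P : Ω → ℝ)
    (s : Ω → Finset ι) (a : ι → ℕ) (n : Fin K → ℝ) (η : ℝ) (hn : ∀ i, 0 < n i) (J M : ℕ)
    (T : Finset (Fin K × ℕ)) (hT : ∀ x ∈ T, 1 ≤ x.2 ∧ x.2 ≤ M) (c : Fin K × ℕ → ℝ)
    (hyp : ∀ ls : List (Fin K × ℕ), ls.length ≤ J → (∀ l ∈ ls, 1 ≤ l.2 ∧ l.2 ≤ M) →
      |∑ o, P o * ph a (ls.map fun l => Real.exp (-((l.2 : ℝ) / n l.1))) (s o) -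
        (ls.map fun l => n l.1 / (l.2 : ℝ)).prod| ≤ η * (ls.map fun l => n l.1).prod)
    (k : ℕ) (hk : k ≤ J) :
    |∑ o, P o * fm (fun C => ∑ x ∈ T, c x * ((a C / n x.1) *
        Real.exp (-((x.2 : ℝ) / n x.1)) ^ a C)) k (s o) - (∑ x ∈ T, c x / x.2) ^ k| ≤
      (∑ x ∈ T, |c x|) ^ k * η := by
  have e0 : (fun C => ∑ x ∈ T, c x * ((a C / n x.1) * Real.exp (-((x.2 : ℝ) / n x.1)) ^ a C)) =
      fun C => ∑ x ∈ T, (c x / n x.1) * ((a C : ℝ) *
        (fun x : Fin K × ℕ => Real.exp (-((x.2 : ℝ) / n x.1))) x ^ a C) := by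
    funext C
    refine sum_congr rfl fun x _ => ?_
    ring
  have e1 : ∑ o, P o * fm (fun C => ∑ x ∈ T, c x * ((a C / n x.1) *
        Real.exp (-((x.2 : ℝ) / n x.1)) ^ a C)) k (s o) =
      SW (fun x => c x / n x.1) T k (fun ls => ∑ o, P o *
        ph a (ls.map fun l => Real.exp (-((l.2 : ℝ) / n l.1))) (s o)) := by
    rw [SW_sum univ k (fun (o : Ω) (ls : List (Fin K × ℕ)) => P o *
      ph a (ls.map fun l => Real.exp (-((l.2 : ℝ) / n l.1))) (s o))]
    refine sum_congr rfl fun o _ => ?_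
    rw [e0, fm_eq (fun x => c x / n x.1) T a (fun x => Real.exp (-((x.2 : ℝ) / n x.1))) k (s o),
      SW_mul]
  have e2 : (∑ x ∈ T, c x / x.2) ^ k =
      SW (fun x => c x / n x.1) T k (fun ls => (ls.map fun l => n l.1 / (l.2 : ℝ)).prod) := by
    rw [SW_prod (fun l : Fin K × ℕ => n l.1 / (l.2 : ℝ)) k]
    congr 1
    refine sum_congr rfl fun x _ => ?_
    have := (hn x.1).ne'
    field_simp
  have e3 : ∑ x ∈ T, |c x| = ∑ x ∈ T, |c x / n x.1| * n x.1 := by
    refine sum_congr rfl fun x _ => ?_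
    rw [abs_div, abs_of_pos (hn x.1), div_mul_cancel₀ _ (hn x.1).ne']
  rw [e1, e2, e3]
  refine SW_bound (g := fun x : Fin K × ℕ => n x.1) k _ _ ?_
  intro ls h1 h2
  exact hyp ls (h1 ▸ hk) (fun l hl => hT l (h2 l hl))

theorem testk (hBON : S_BON) : S_TESTK := by
  intro K φ α β hα hαβ hc h01 hs ε hε
  obtain ⟨lam, hlam⟩ : ∃ lam : ℝ, lam = ∑ i, ∫ u in Set.Ioi (0:ℝ), φ i u / u := ⟨_, rfl⟩
  have hlam0 : 0 ≤ lam := by
    rw [hlam]
    exact sum_nonneg fun i _ => setIntegral_nonneg measurableSet_Ioi fun u hu =>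
      div_nonneg (h01 i u).1 (le_of_lt hu)
  rw [← hlam]
  -- the degree
  have t1 : Filter.Tendsto (fun n : ℕ => lam ^ n / (n.factorial : ℝ)) Filter.atTop (nhds 0) :=
    FloorSemiring.tendsto_pow_div_factorial_atTop lam
  have t2 : Filter.Tendsto (fun n : ℕ => ∑ j ∈ range n, (-lam) ^ j / (j.factorial : ℝ))
      Filter.atTop (nhds (Real.exp (-lam))) := by
    have := NormedSpace.expSeries_div_hasSum_exp (𝔸 := ℝ) (-lam)
    rw [← Real.exp_eq_exp_ℝ] at this
    exact this.tendsto_sum_nat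
  obtain ⟨J, hJ1, hJ2, hJ3⟩ : ∃ J : ℕ, 1 ≤ J ∧ lam ^ J / (J.factorial : ℝ) ≤ ε / 4 ∧
      |∑ j ∈ range J, (-lam) ^ j / (j.factorial : ℝ) - Real.exp (-lam)| ≤ ε / 4 := by
    have h1 := t1.eventually (eventually_le_nhds (show (0:ℝ) < ε / 4 by positivity))
    have h2 := (Metric.tendsto_nhds.1 t2) (ε / 4) (by positivity)
    obtain ⟨J, hJ⟩ := ((Filter.eventually_ge_atTop 1).and (h1.and h2)).exists
    exact ⟨J, hJ.1, hJ.2.1, hJ.2.2.le⟩
  obtain ⟨δ, hδ⟩ : ∃ δ : ℝ, δ = ε / (2 * (J + 1)) := ⟨_, rfl⟩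
  have hJ0 : (0:ℝ) ≤ J := Nat.cast_nonneg J
  have hK00 : (0:ℝ) ≤ K := Nat.cast_nonneg K
  have hδ0 : 0 < δ := by rw [hδ]; positivity
  have hδJ : (J + 1) * δ = ε / 2 := by rw [hδ]; field_simp
  obtain ⟨A, hA⟩ : ∃ A : ℝ, A = Real.exp β / α + 1 := ⟨_, rfl⟩
  have hA1 : 1 ≤ A := by
    rw [hA]; have : 0 < Real.exp β / α := by positivity
    linarith
  obtain ⟨δ', hδ'0, hδ'⟩ : ∃ δ' > 0, ∀ x : ℝ, |x - lam| < δ' → ∀ k ∈ range (J + 1),
      |x ^ k - lam ^ k| ≤ δ / 3 := by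
    have h1 : ∀ᶠ x in nhds lam, ∀ k ∈ range (J + 1), |x ^ k - lam ^ k| ≤ δ / 3 := by
      rw [Filter.eventually_all_finset]
      intro k _
      have h2 : Filter.Tendsto (fun x : ℝ => |x ^ k - lam ^ k|) (nhds lam) (nhds |lam ^ k - lam ^ k|) :=
        (((continuous_pow k).sub continuous_const).abs).tendsto lam
      rw [sub_self, abs_zero] at h2
      exact h2.eventually (eventually_le_nhds (show (0:ℝ) < δ / 3 by positivity))
    obtain ⟨δ', h3, h4⟩ := Metric.eventually_nhds_iff.1 h1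
    exact ⟨δ', h3, fun x hx => h4 (by rwa [Real.dist_eq])⟩
  obtain ⟨B, hB⟩ : ∃ B : ℝ, B = ((K : ℝ) + 1) ^ J := ⟨_, rfl⟩
  have hB1 : 1 ≤ B := by
    rw [hB]; exact one_le_pow₀ (by linarith)
  have hB0 : 0 < B := by linarith
  obtain ⟨η₁, hη₁⟩ : ∃ η₁ : ℝ, η₁ = min (min 1 (δ' / (2 * (K + 1))))
    (δ / (6 * (J + 1) * A ^ J * B)) := ⟨_, rfl⟩
  have hAJ : (0:ℝ) < A ^ J := by positivity
  have hη₁0 : 0 < η₁ := by rw [hη₁]; positivity
  have hη₁1 : η₁ ≤ 1 := by rw [hη₁]; exact (min_le_left _ _).trans (min_le_left _ _)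
  have hη₁2 : K * η₁ < δ' := by
    have h1 : η₁ ≤ δ' / (2 * (K + 1)) := by
      rw [hη₁]; exact (min_le_left _ _).trans (min_le_right _ _)
    have h2 : (K + 1) * η₁ ≤ δ' / 2 := by
      have h3 := mul_le_mul_of_nonneg_left h1 (show (0:ℝ) ≤ K + 1 by linarith)
      have h4 : ((K : ℝ) + 1) * (δ' / (2 * (K + 1))) = δ' / 2 := by field_simp
      linarith
    have h5 : (K + 1) * η₁ = K * η₁ + η₁ := by ring
    linarith
  have hη₁3 : η₁ * (6 * (J + 1) * A ^ J * B) ≤ δ := by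
    have : η₁ ≤ δ / (6 * (J + 1) * A ^ J * B) := by rw [hη₁]; exact min_le_right _ _
    exact (le_div_iff₀ (by positivity)).1 this
  obtain ⟨M, c, hM1, hw1, hw2⟩ := weierK φ hc h01 α β hα hαβ hs η₁ hη₁0
  -- the index set of the words and the coefficients
  set T : Finset (Fin K × ℕ) := univ ×ˢ Icc 1 M with hTdef
  set d : Fin K × ℕ → ℝ := fun x => c x.1 x.2 with hd
  have hT : ∀ x ∈ T, 1 ≤ x.2 ∧ x.2 ≤ M := by
    intro x hx
    rw [hTdef, mem_product, mem_Icc] at hx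
    exact hx.2
  have hwl : |∑ x ∈ T, d x / x.2 - lam| ≤ K * η₁ := by
    rw [hlam, hTdef, sum_product, ← sum_sub_distrib]
    refine (abs_sum_le_sum_abs _ _).trans ((sum_le_sum fun i _ => hw2 i).trans (le_of_eq ?_))
    rw [sum_const, card_univ, Fintype.card_fin, nsmul_eq_mul]
  obtain ⟨S, hS⟩ : ∃ S : ℝ, S = 1 + ∑ x ∈ T, |d x| := ⟨_, rfl⟩
  have hS0 : 0 ≤ ∑ x ∈ T, |d x| := sum_nonneg fun _ _ => abs_nonneg _
  have hS1 : 1 ≤ S := by rw [hS]; linarith
  have hSJ : (0:ℝ) < S ^ J := by positivity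
  obtain ⟨η, hη⟩ : ∃ η : ℝ, η = min 1 (δ / (3 * S ^ J)) := ⟨_, rfl⟩
  have hη0 : 0 < η := by rw [hη]; positivity
  have hη1 : η ≤ 1 := by rw [hη]; exact min_le_left _ _
  have hη2 : S ^ J * η ≤ δ / 3 := by
    have : η ≤ δ / (3 * S ^ J) := by rw [hη]; exact min_le_right _ _
    have := (le_div_iff₀ (by positivity)).1 this
    linarith
  refine ⟨η, J, M, hη0, ?_⟩
  intro Ω ι _ _ P s a n hn hsep hP hP1 hyp
  set f : ι → ℝ := fun C => ∑ i, φ i (a C / n i) with hf
  set h : ι → ℝ := fun C => ∑ i, (a C / n i) * Real.exp (-(a C / n i)) with hh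
  set f' : ι → ℝ := fun C => ∑ x ∈ T, d x * ((a C / n x.1) *
    Real.exp (-((x.2 : ℝ) / n x.1)) ^ a C) with hf'
  have hu0 : ∀ (C : ι) (i : Fin K), (0:ℝ) ≤ a C / n i := fun C i =>
    div_nonneg (Nat.cast_nonneg _) (hn i).le
  have hh0 : ∀ C, 0 ≤ h C := fun C => sum_nonneg fun i _ =>
    mul_nonneg (hu0 C i) (Real.exp_pos _).le
  have hexp : ∀ (i : Fin K) (l : ℕ) (C : ι),
      Real.exp (-((l : ℝ) / n i)) ^ a C = Real.exp (-(a C / n i)) ^ l := by
    intro i l C
    rw [← Real.exp_nat_mul, ← Real.exp_nat_mul]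
    congr 1; ring
  have b1 : ∀ C, |f C| ≤ (A - 1) * h C := by
    intro C
    show |∑ i, φ i (a C / n i)| ≤ (A - 1) * ∑ i, (a C / n i) * Real.exp (-(a C / n i))
    rw [mul_sum]
    refine (abs_sum_le_sum_abs _ _).trans (sum_le_sum fun i _ => ?_)
    have hu := hu0 C i
    rw [abs_of_nonneg (h01 i _).1, hA, add_sub_cancel_right]
    generalize ha : (a C : ℝ) / n i = u at *
    by_cases h1 : u < α ∨ β < u
    · rw [hs i u h1]; positivity
    · push Not at h1
      have h2 : 1 ≤ Real.exp β * Real.exp (-u) := by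
        rw [← Real.exp_add]; exact Real.one_le_exp (by linarith)
      have h3 : 1 ≤ u / α := (one_le_div hα).2 h1.1
      calc φ i u ≤ 1 := (h01 i u).2
        _ ≤ (Real.exp β * Real.exp (-u)) * (u / α) := one_le_mul_of_one_le_of_one_le h2 h3
        _ = Real.exp β / α * (u * Real.exp (-u)) := by ring
  have b3 : ∀ C, |f C - f' C| ≤ η₁ * h C := by
    intro C
    have h2 : f' C = ∑ i, (a C / n i) * ∑ l ∈ Icc 1 M, c i l * Real.exp (-(a C / n i)) ^ l := by
      simp only [hf', hTdef, sum_product, mul_sum]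
      refine sum_congr rfl fun i _ => sum_congr rfl fun l _ => ?_
      simp only [hd]
      rw [hexp i l C]; ring
    rw [h2]
    show |∑ i, φ i (a C / n i) - _| ≤ η₁ * ∑ i, (a C / n i) * Real.exp (-(a C / n i))
    rw [← sum_sub_distrib, mul_sum]
    exact (abs_sum_le_sum_abs _ _).trans (sum_le_sum fun i _ => hw1 i (a C / n i) (hu0 C i))
  have b1' : ∀ C, |f C| ≤ A * h C := fun C => (b1 C).trans (by nlinarith [hh0 C])
  have b2 : ∀ C, |f' C| ≤ A * h C := by
    intro C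
    have h1 := b1 C
    have h2 := b3 C
    have h3 : |f' C| ≤ |f C| + |f C - f' C| := by
      have := abs_sub (f C) (f C - f' C)
      rw [sub_sub_cancel] at this
      exact this
    have h4 : η₁ * h C ≤ 1 * h C := mul_le_mul_of_nonneg_right hη₁1 (hh0 C)
    linarith
  have mh : ∀ k ≤ J, ∑ o, P o * fm h k (s o) ≤ 2 * B := by
    intro k hk
    have h1 := moment P s a n η hn J M (univ ×ˢ {1}) (by
      intro x hx
      rw [mem_product, mem_singleton] at hx
      rw [hx.2]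
      exact ⟨le_rfl, hM1⟩) (fun _ => 1) hyp k hk
    have h2 : (fun C : ι => ∑ x ∈ (univ : Finset (Fin K)) ×ˢ ({1} : Finset ℕ),
        (fun _ => (1:ℝ)) x * ((a C / n x.1) * Real.exp (-((x.2 : ℝ) / n x.1)) ^ a C)) = h := by
      funext C
      rw [sum_product, hh]
      refine sum_congr rfl fun i _ => ?_
      rw [sum_singleton]
      simp only
      rw [hexp i 1 C, pow_one, one_mul]
    rw [h2] at h1
    have h3 : ∑ x ∈ (univ : Finset (Fin K)) ×ˢ ({1} : Finset ℕ), (1:ℝ) / (x.2 : ℝ) = K := by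
      rw [sum_product]
      simp
    have h4 : ∑ x ∈ (univ : Finset (Fin K)) ×ˢ ({1} : Finset ℕ), |(1:ℝ)| = K := by
      rw [sum_product]
      simp
    rw [h3, h4] at h1
    have h5 := (abs_le.1 h1).2
    have h6 : (K : ℝ) ^ k ≤ B := by
      rw [hB]
      calc (K : ℝ) ^ k ≤ ((K : ℝ) + 1) ^ k := pow_le_pow_left₀ hK00 (by linarith) k
        _ ≤ ((K : ℝ) + 1) ^ J := pow_le_pow_right₀ (by linarith) hk
    have h7 : (K : ℝ) ^ k * η ≤ (K : ℝ) ^ k * 1 :=
      mul_le_mul_of_nonneg_left hη1 (pow_nonneg hK00 k)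
    linarith
  have mf : ∀ k ≤ J, |∑ o, P o * fm f k (s o) - lam ^ k| ≤ δ := by
    intro k hk
    have h1 := moment P s a n η hn J M T hT d hyp k hk
    have h2 : |∑ o, P o * fm f k (s o) - ∑ o, P o * fm f' k (s o)| ≤ δ / 3 := by
      rw [← sum_sub_distrib]
      have h3 : (k : ℝ) * η₁ * A ^ k * B ≤ δ / 6 := by
        have h4 : (k : ℝ) ≤ J + 1 := by
          have : (k : ℝ) ≤ J := by exact_mod_cast hk
          linarith
        have h5 : A ^ k ≤ A ^ J := pow_le_pow_right₀ hA1 hk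
        calc (k : ℝ) * η₁ * A ^ k * B ≤ (J + 1) * η₁ * A ^ J * B := by gcongr
          _ ≤ δ / 6 := by linarith
      calc |∑ o, (P o * fm f k (s o) - P o * fm f' k (s o))|
          ≤ ∑ o, |P o * fm f k (s o) - P o * fm f' k (s o)| := abs_sum_le_sum_abs _ _
        _ ≤ ∑ o, (k : ℝ) * η₁ * A ^ k * (P o * fm h k (s o)) := by
            refine sum_le_sum fun o _ => ?_
            rw [← mul_sub, abs_mul, abs_of_nonneg (hP o)]
            have := mul_le_mul_of_nonneg_left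
              (Testh.fm_diff hA1 hη₁0.le hh0 b1' b2 b3 k (s o)) (hP o)
            linarith
        _ = (k : ℝ) * η₁ * A ^ k * ∑ o, P o * fm h k (s o) := by rw [mul_sum]
        _ ≤ (k : ℝ) * η₁ * A ^ k * (2 * B) :=
            mul_le_mul_of_nonneg_left (mh k hk) (by positivity)
        _ ≤ δ / 3 := by linarith
    have h3 : |∑ o, P o * fm f' k (s o) - (∑ x ∈ T, d x / x.2) ^ k| ≤ δ / 3 := by
      refine h1.trans ?_
      have h4 : (∑ x ∈ T, |d x|) ^ k ≤ S ^ J := by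
        calc (∑ x ∈ T, |d x|) ^ k ≤ S ^ k := by
              refine pow_le_pow_left₀ hS0 ?_ k
              rw [hS]; linarith
          _ ≤ S ^ J := pow_le_pow_right₀ hS1 hk
      exact (mul_le_mul_of_nonneg_right h4 hη0.le).trans hη2
    have h4 : |(∑ x ∈ T, d x / x.2) ^ k - lam ^ k| ≤ δ / 3 :=
      hδ' _ (lt_of_le_of_lt hwl hη₁2) k (mem_range.2 (by omega))
    have h5 := abs_le.1 h2
    have h6 := abs_le.1 h3
    have h7 := abs_le.1 h4
    exact abs_le.2 ⟨by linarith [h5.1, h6.1, h7.1], by linarith [h5.2, h6.2, h7.2]⟩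
  -- Bonferroni
  obtain ⟨J', rfl⟩ : ∃ J' : ℕ, J = J' + 1 := ⟨J - 1, by omega⟩
  have hf01 : ∀ C, 0 ≤ f C ∧ f C ≤ 1 := by
    intro C
    refine ⟨sum_nonneg fun i _ => (h01 i _).1, ?_⟩
    by_cases hall : ∀ i, φ i (a C / n i) = 0
    · have : f C = 0 := sum_eq_zero fun i _ => hall i
      rw [this]; exact zero_le_one
    · push Not at hall
      obtain ⟨i, hi⟩ := hall
      have hrange : ∀ j, φ j (a C / n j) ≠ 0 → α * n j ≤ a C ∧ (a C : ℝ) ≤ β * n j := by
        intro j hj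
        have h1 : ¬ ((a C : ℝ) / n j < α ∨ β < (a C : ℝ) / n j) := fun h => hj (hs j _ h)
        push Not at h1
        exact ⟨(le_div_iff₀ (hn j)).1 h1.1, (div_le_iff₀ (hn j)).1 h1.2⟩
      have hzero : ∀ j, j ≠ i → φ j (a C / n j) = 0 := by
        intro j hji
        by_contra hj
        have h1 := hrange i hi
        have h2 := hrange j hj
        rcases lt_or_gt_of_ne hji with h3 | h3
        · have := hsep j i h3
          linarith [h1.1, h2.2]
        · have := hsep i j h3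
          linarith [h1.2, h2.1]
      have h4 : f C = φ i (a C / n i) :=
        sum_eq_single i (fun j _ hji => hzero j hji) (fun h => absurd (mem_univ i) h)
      rw [h4]
      exact (h01 i _).2
  have c1 : |∑ o, P o * ∏ C ∈ s o, (1 - f C) -
      ∑ j ∈ range (J' + 1), (-1) ^ j * (∑ o, P o * fm f j (s o)) / (j.factorial : ℝ)| ≤
      (∑ o, P o * fm f (J' + 1) (s o)) / ((J' + 1).factorial : ℝ) := by
    have e1 : ∑ j ∈ range (J' + 1), (-1) ^ j * (∑ o, P o * fm f j (s o)) / (j.factorial : ℝ) =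
        ∑ o, P o * ∑ j ∈ range (J' + 1), (-1) ^ j * fm f j (s o) / (j.factorial : ℝ) := by
      simp only [mul_sum, sum_div]
      rw [sum_comm]
      exact sum_congr rfl fun o _ => sum_congr rfl fun j _ => by ring
    rw [e1, ← sum_sub_distrib]
    refine (abs_sum_le_sum_abs _ _).trans ?_
    rw [sum_div]
    refine sum_le_sum fun o _ => ?_
    rw [← mul_sub, abs_mul, abs_of_nonneg (hP o), mul_div_assoc]
    exact mul_le_mul_of_nonneg_left (hBON ι f (s o) hf01 J') (hP o)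
  have c2 : |∑ j ∈ range (J' + 1), (-1) ^ j * (∑ o, P o * fm f j (s o)) / (j.factorial : ℝ) -
      ∑ j ∈ range (J' + 1), (-lam) ^ j / (j.factorial : ℝ)| ≤ (J' + 1) * δ := by
    rw [← sum_sub_distrib]
    refine (abs_sum_le_sum_abs _ _).trans ?_
    have : ((J' : ℝ) + 1) * δ = ∑ j ∈ range (J' + 1), δ := by
      rw [sum_const, card_range, nsmul_eq_mul]; push_cast; ring
    rw [this]
    refine sum_le_sum fun j hj => ?_
    have hj' : j ≤ J' + 1 := (mem_range.1 hj).le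
    have e2 : (-1) ^ j * (∑ o, P o * fm f j (s o)) / (j.factorial : ℝ) -
        (-lam) ^ j / (j.factorial : ℝ) =
        ((-1) ^ j * (∑ o, P o * fm f j (s o) - lam ^ j)) / (j.factorial : ℝ) := by
      rw [neg_pow lam j]; ring
    have hfac : (1:ℝ) ≤ (j.factorial : ℝ) := by exact_mod_cast Nat.one_le_iff_ne_zero.2 j.factorial_ne_zero
    rw [e2, abs_div, abs_mul, abs_pow, abs_neg, abs_one, one_pow, one_mul,
      abs_of_pos (lt_of_lt_of_le one_pos hfac)]
    exact (div_le_self (abs_nonneg _) hfac).trans (mf j hj')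
  have c3 : (∑ o, P o * fm f (J' + 1) (s o)) / ((J' + 1).factorial : ℝ) ≤ ε / 4 + δ := by
    have h1 := (abs_le.1 (mf (J' + 1) le_rfl)).2
    have hfac : (1:ℝ) ≤ ((J' + 1).factorial : ℝ) := by
      exact_mod_cast Nat.one_le_iff_ne_zero.2 (J' + 1).factorial_ne_zero
    have h2 : ∑ o, P o * fm f (J' + 1) (s o) ≤ lam ^ (J' + 1) + δ := by linarith
    calc (∑ o, P o * fm f (J' + 1) (s o)) / ((J' + 1).factorial : ℝ) ≤
          (lam ^ (J' + 1) + δ) / ((J' + 1).factorial : ℝ) := by gcongr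
      _ = lam ^ (J' + 1) / ((J' + 1).factorial : ℝ) + δ / ((J' + 1).factorial : ℝ) := add_div _ _ _
      _ ≤ ε / 4 + δ := add_le_add hJ2 (div_le_self hδ0.le hfac)
  have g1 := abs_le.1 c1
  have g2 := abs_le.1 c2
  have g3 := abs_le.1 hJ3
  push_cast at hδJ
  have hδJ' : (J' + 1) * δ + δ = ε / 2 := by linarith
  refine abs_le.2 ⟨?_, ?_⟩
  · linarith [g1.1, g2.1, g3.1]
  · linarith [g1.2, g2.2, g3.2]

end final

end

end Pool.Agent.H538.KS
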